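import Pool.Agent.Helper362.ProdG

/-!
# Ideal inequalities for `𝔏_p`, `𝔏₂`, products and adjoints
-/

set_option autoImplicit false
set_option maxHeartbeats 400000

open Module NormedSpace MeasureTheory
open scoped ENNReal

namespace Pool.Agent.Y430.PN

open Pool.Agent.Helper362.ProdId Pool.Agent.Helper362.Ideals

variable {𝕜 : Type} [RCLike 𝕜]

/-- the ideal inequality for all operators -/
def Idl (N : IdealFn 𝕜) : Prop :=
  ∀ (W X Y Z : Type) [NormedAddCommGroup W] [NormedSpace 𝕜 W]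
    [CompleteSpace W] [NormedAddCommGroup X] [NormedSpace 𝕜 X] [CompleteSpace X]
    [NormedAddCommGroup Y] [NormedSpace 𝕜 Y] [CompleteSpace Y]
    [NormedAddCommGroup Z] [NormedSpace 𝕜 Z] [CompleteSpace Z]
    (S : W →L[𝕜] X) (T : X →L[𝕜] Y) (R : Y →L[𝕜] Z), IdealAt N S T R

section

variable {W X Y Z : Type} [NormedAddCommGroup W] [NormedSpace 𝕜 W]
    [CompleteSpace W] [NormedAddCommGroup X] [NormedSpace 𝕜 X] [CompleteSpace X]
    [NormedAddCommGroup Y] [NormedSpace 𝕜 Y] [CompleteSpace Y]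
    [NormedAddCommGroup Z] [NormedSpace 𝕜 Z] [CompleteSpace Z]

theorem enorm_id_le : ‖ContinuousLinearMap.id 𝕜 X‖ₑ ≤ 1 :=
  enorm_le_one _ ContinuousLinearMap.norm_id_le

theorem enorm_comp_le (R : Y →L[𝕜] Z) (T : X →L[𝕜] Y) : ‖R ∘L T‖ₑ ≤ ‖R‖ₑ * ‖T‖ₑ := by
  rw [← ofReal_norm, ← ofReal_norm, ← ofReal_norm,
    ← ENNReal.ofReal_mul (norm_nonneg _)]
  exact ENNReal.ofReal_le_ofReal (ContinuousLinearMap.opNorm_comp_le _ _)

theorem left {N : IdealFn 𝕜} (hN : Idl N) (T : X →L[𝕜] Y) (R : Y →L[𝕜] Z) :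
    N.val (R ∘L T) ≤ ‖R‖ₑ * N.val T := by
  have h := hN X X Y Z (ContinuousLinearMap.id 𝕜 X) T R
  unfold IdealAt at h
  rw [ContinuousLinearMap.comp_id] at h
  refine h.trans ?_
  calc ‖R‖ₑ * N.val T * ‖ContinuousLinearMap.id 𝕜 X‖ₑ ≤ ‖R‖ₑ * N.val T * 1 :=
        mul_le_mul' le_rfl enorm_id_le
    _ = _ := mul_one _

theorem right {N : IdealFn 𝕜} (hN : Idl N) (S : W →L[𝕜] X) (T : X →L[𝕜] Y) :
    N.val (T ∘L S) ≤ N.val T * ‖S‖ₑ := by
  have h := hN W X Y Y S T (ContinuousLinearMap.id 𝕜 Y)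
  unfold IdealAt at h
  rw [ContinuousLinearMap.id_comp] at h
  refine h.trans ?_
  calc ‖ContinuousLinearMap.id 𝕜 Y‖ₑ * N.val T * ‖S‖ₑ ≤ 1 * N.val T * ‖S‖ₑ :=
        mul_le_mul' (mul_le_mul' enorm_id_le le_rfl) le_rfl
    _ = _ := by rw [one_mul]

theorem smul_le {N : IdealFn 𝕜} (hN : Idl N) (c : 𝕜) (T : X →L[𝕜] Y) :
    N.val (c • T) ≤ ‖c‖ₑ * N.val T := by
  have e1 : c • T = (c • ContinuousLinearMap.id 𝕜 Y) ∘L T := by
    ext x
    rfl
  rw [e1]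
  refine (left hN T _).trans (mul_le_mul' ?_ le_rfl)
  rw [← ofReal_norm, ← ofReal_norm]
  refine ENNReal.ofReal_le_ofReal ?_
  rw [norm_smul]
  calc ‖c‖ * ‖ContinuousLinearMap.id 𝕜 Y‖ ≤ ‖c‖ * 1 :=
        mul_le_mul_of_nonneg_left ContinuousLinearMap.norm_id_le (norm_nonneg _)
    _ = ‖c‖ := mul_one _

theorem zero {N : IdealFn 𝕜} (hN : Idl N) : N.val (0 : X →L[𝕜] Y) = 0 := by
  have h := smul_le hN (0 : 𝕜) (0 : X →L[𝕜] Y)
  rw [zero_smul, enorm_zero, zero_mul] at h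
  exact le_antisymm h bot_le

theorem smul_eq {N : IdealFn 𝕜} (hN : Idl N) (c : 𝕜) (T : X →L[𝕜] Y) :
    N.val (c • T) = ‖c‖ₑ * N.val T := by
  by_cases hc : c = 0
  · rw [hc, zero_smul, enorm_zero, zero_mul]
    exact zero hN
  refine le_antisymm (smul_le hN c T) ?_
  have h := smul_le hN c⁻¹ (c • T)
  rw [smul_smul, inv_mul_cancel₀ hc, one_smul] at h
  calc ‖c‖ₑ * N.val T ≤ ‖c‖ₑ * (‖c⁻¹‖ₑ * N.val (c • T)) := mul_le_mul' le_rfl h
    _ = N.val (c • T) := by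
        rw [← mul_assoc, ← enorm_mul, mul_inv_cancel₀ hc, enorm_one, one_mul]

theorem inf_ideal {s s' : Set ℝ≥0∞} {a b : ℝ≥0∞} (ha : a ≠ ⊤) (hb : b ≠ ⊤)
    (h : ∀ c ∈ s, ∃ c' ∈ s', c' ≤ a * c * b) (h0 : a = 0 ∨ b = 0 → sInf s' = 0) :
    sInf s' ≤ a * sInf s * b := by
  rcases s.eq_empty_or_nonempty with hs | hs
  · rw [hs, sInf_empty]
    by_cases hab : a = 0 ∨ b = 0
    · rw [h0 hab]
      exact bot_le
    · push Not at hab
      rw [ENNReal.mul_top hab.1, ENNReal.top_mul hab.2]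
      exact le_top
  · have h1 : sInf s' ≤ (a * b) * sInf s := by
      refine le_mul_sInf (ENNReal.mul_ne_top ha hb) hs ?_
      intro c hc
      obtain ⟨c', hc', hle⟩ := h c hc
      refine (sInf_le hc').trans (hle.trans (le_of_eq ?_))
      ring
    refine h1.trans (le_of_eq ?_)
    ring

/-- the adjoint operator -/
noncomputable def dual (R : Y →L[𝕜] Z) : StrongDual 𝕜 Z →L[𝕜] StrongDual 𝕜 Y :=
  (ContinuousLinearMap.compL 𝕜 Y Z 𝕜).flip R

theorem dual_apply (R : Y →L[𝕜] Z) (φ : StrongDual 𝕜 Z) : dual R φ = φ ∘L R := rfl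

theorem norm_dual_le (R : Y →L[𝕜] Z) : ‖dual R‖ ≤ ‖R‖ := by
  refine ContinuousLinearMap.opNorm_le_bound _ (norm_nonneg _) fun φ => ?_
  rw [dual_apply, mul_comm]
  exact ContinuousLinearMap.opNorm_comp_le _ _

/-- the second adjoint -/
noncomputable def bid (R : Y →L[𝕜] Z) : Bidual 𝕜 Y →L[𝕜] Bidual 𝕜 Z :=
  (dual (dual R) : StrongDual 𝕜 (StrongDual 𝕜 Y) →L[𝕜] StrongDual 𝕜 (StrongDual 𝕜 Z))

theorem norm_bid_le (R : Y →L[𝕜] Z) : ‖bid R‖ ≤ ‖R‖ :=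
  (norm_dual_le (dual R)).trans (norm_dual_le R)

theorem bid_jmap (R : Y →L[𝕜] Z) (y : Y) : bid R (jmap 𝕜 y) = jmap 𝕜 (R y) := rfl

theorem enorm_eq_zero' {V : Type} [NormedAddCommGroup V] {v : V} (h : ‖v‖ₑ = 0) : v = 0 := by
  rwa [enorm_eq_zero] at h

theorem lebesgueVal_zero (p : ℝ≥0∞) [Fact (1 ≤ p)] : lebesgueVal p (0 : X →L[𝕜] Y) = 0 := by
  refine le_antisymm ?_ bot_le
  refine sInf_le_of_le ⟨Unit, inferInstance, (Measure.dirac () : Measure Unit), 0, 0, ?_, rfl⟩ ?_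
  · intro x
    show jmap 𝕜 (0 : Y) = 0
    exact map_zero (inclusionInDoubleDual 𝕜 Y)
  · rw [norm_zero, norm_zero, zero_mul, ENNReal.ofReal_zero]

theorem idl_LL (p : ℝ≥0∞) [Fact (1 ≤ p)] : Idl (LL 𝕜 p) := by
  intro W X Y Z _ _ _ _ _ _ _ _ _ _ _ _ S T R
  show lebesgueVal p (R ∘L T ∘L S) ≤ ‖R‖ₑ * lebesgueVal p T * ‖S‖ₑ
  refine inf_ideal enorm_ne_top enorm_ne_top ?_ ?_
  · rintro c ⟨Ω, _, μ, S0, R0, h, rfl⟩
    refine ⟨_, ⟨Ω, inferInstance, μ, S0 ∘L S, bid R ∘L R0, ?_, rfl⟩, ?_⟩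
    · intro w
      show jmap 𝕜 (R (T (S w))) = bid R (R0 (S0 (S w)))
      rw [← h, bid_jmap]
    · rw [← ofReal_norm, ← ofReal_norm, ← ENNReal.ofReal_mul (norm_nonneg _),
        ← ENNReal.ofReal_mul (by positivity)]
      refine ENNReal.ofReal_le_ofReal ?_
      calc ‖bid R ∘L R0‖ * ‖S0 ∘L S‖ ≤ (‖bid R‖ * ‖R0‖) * (‖S0‖ * ‖S‖) :=
            mul_le_mul (ContinuousLinearMap.opNorm_comp_le _ _)
              (ContinuousLinearMap.opNorm_comp_le _ _) (norm_nonneg _) (by positivity)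
        _ ≤ (‖R‖ * ‖R0‖) * (‖S0‖ * ‖S‖) :=
            mul_le_mul_of_nonneg_right (mul_le_mul_of_nonneg_right (norm_bid_le R)
              (norm_nonneg _)) (by positivity)
        _ = _ := by ring
  · rintro (h | h)
    · rw [enorm_eq_zero' h, ContinuousLinearMap.zero_comp]
      exact lebesgueVal_zero p
    · rw [enorm_eq_zero' h, ContinuousLinearMap.comp_zero, ContinuousLinearMap.comp_zero]
      exact lebesgueVal_zero p

theorem hilbertVal_zero : hilbertVal (0 : X →L[𝕜] Y) = 0 := by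
  refine le_antisymm ?_ bot_le
  refine sInf_le_of_le ⟨𝕜, inferInstance, inferInstance, inferInstance, 0, 0, ?_, rfl⟩ ?_
  · rw [ContinuousLinearMap.comp_zero]
  · rw [norm_zero, norm_zero, zero_mul, ENNReal.ofReal_zero]

theorem idl_L2 : Idl (L2 𝕜) := by
  intro W X Y Z _ _ _ _ _ _ _ _ _ _ _ _ S T R
  show hilbertVal (R ∘L T ∘L S) ≤ ‖R‖ₑ * hilbertVal T * ‖S‖ₑ
  refine inf_ideal enorm_ne_top enorm_ne_top ?_ ?_
  · rintro c ⟨H, _, _, _, S0, R0, h, rfl⟩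
    refine ⟨_, ⟨H, inferInstance, inferInstance, inferInstance, S0 ∘L S, R ∘L R0, ?_, rfl⟩, ?_⟩
    · rw [h]
      rfl
    · rw [← ofReal_norm, ← ofReal_norm, ← ENNReal.ofReal_mul (norm_nonneg _),
        ← ENNReal.ofReal_mul (by positivity)]
      refine ENNReal.ofReal_le_ofReal ?_
      calc ‖R ∘L R0‖ * ‖S0 ∘L S‖ ≤ (‖R‖ * ‖R0‖) * (‖S0‖ * ‖S‖) :=
            mul_le_mul (ContinuousLinearMap.opNorm_comp_le _ _)
              (ContinuousLinearMap.opNorm_comp_le _ _) (norm_nonneg _) (by positivity)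
        _ = _ := by ring
  · rintro (h | h)
    · rw [enorm_eq_zero' h, ContinuousLinearMap.zero_comp]
      exact hilbertVal_zero
    · rw [enorm_eq_zero' h, ContinuousLinearMap.comp_zero, ContinuousLinearMap.comp_zero]
      exact hilbertVal_zero

end

theorem prodVal_zero {X Y : Type} [NormedAddCommGroup X] [NormedSpace 𝕜 X] [CompleteSpace X]
    [NormedAddCommGroup Y] [NormedSpace 𝕜 Y] [CompleteSpace Y] {A B : IdealFn 𝕜} (hA : Idl A)
    (hB : Idl B) : prodVal A B (0 : X →L[𝕜] Y) = 0 := by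
  refine le_antisymm ?_ bot_le
  refine sInf_le_of_le ⟨𝕜, inferInstance, inferInstance, inferInstance, 0, 0, ?_, ?_, ?_, rfl⟩ ?_
  · rw [ContinuousLinearMap.comp_zero]
  · rw [zero hA]
    exact ENNReal.zero_lt_top
  · rw [zero hB]
    exact ENNReal.zero_lt_top
  · rw [zero hA, zero_mul]

theorem idl_prod {A B : IdealFn 𝕜} (hA : Idl A) (hB : Idl B) : Idl (prod A B) := by
  intro W X Y Z _ _ _ _ _ _ _ _ _ _ _ _ S T R
  show prodVal A B (R ∘L T ∘L S) ≤ ‖R‖ₑ * prodVal A B T * ‖S‖ₑ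
  refine inf_ideal enorm_ne_top enorm_ne_top ?_ ?_
  · rintro c ⟨V, _, _, _, U, V', h, hV, hU, rfl⟩
    have e1 := left hA V' R
    have e2 := right hB S U
    refine ⟨_, ⟨V, inferInstance, inferInstance, inferInstance, U ∘L S, R ∘L V', ?_, ?_, ?_,
      rfl⟩, ?_⟩
    · rw [h]
      rfl
    · exact e1.trans_lt (ENNReal.mul_lt_top enorm_lt_top hV)
    · exact e2.trans_lt (ENNReal.mul_lt_top hU enorm_lt_top)
    · refine (mul_le_mul' e1 e2).trans (le_of_eq ?_)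
      ring
  · rintro (h | h)
    · rw [enorm_eq_zero' h, ContinuousLinearMap.zero_comp]
      exact prodVal_zero hA hB
    · rw [enorm_eq_zero' h, ContinuousLinearMap.comp_zero, ContinuousLinearMap.comp_zero]
      exact prodVal_zero hA hB

/-- the norm of a lift to a quotient -/
theorem norm_lift_le {Y Z : Type} [NormedAddCommGroup Y] [NormedSpace 𝕜 Y]
    [NormedAddCommGroup Z] [NormedSpace 𝕜 Z] (L : Submodule 𝕜 Y) [IsClosed (L : Set Y)]
    (q : Y →L[𝕜] Z) (h : L ≤ LinearMap.ker (q : Y →ₗ[𝕜] Z)) : ‖L.liftQL q h‖ ≤ ‖q‖ := by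
  refine ContinuousLinearMap.opNorm_le_bound _ (norm_nonneg _) fun x => ?_
  refine le_of_forall_pos_le_add fun ε hε => ?_
  have hq : 0 < ‖q‖ + 1 := by positivity
  obtain ⟨m, rfl, hm⟩ := Submodule.Quotient.norm_mk_lt x (div_pos hε hq)
  have h1 : L.liftQL q h (Submodule.Quotient.mk m) = q m := rfl
  rw [h1]
  calc ‖q m‖ ≤ ‖q‖ * ‖m‖ := q.le_opNorm m
    _ ≤ ‖q‖ * (‖(Submodule.Quotient.mk m : Y ⧸ L)‖ + ε / (‖q‖ + 1)) :=
        mul_le_mul_of_nonneg_left hm.le (norm_nonneg _)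
    _ = ‖q‖ * ‖(Submodule.Quotient.mk m : Y ⧸ L)‖ + ‖q‖ / (‖q‖ + 1) * ε := by ring
    _ ≤ ‖q‖ * ‖(Submodule.Quotient.mk m : Y ⧸ L)‖ + 1 * ε := by
        have h2 : ‖q‖ / (‖q‖ + 1) ≤ 1 := by
          rw [div_le_one hq]
          linarith
        have := mul_le_mul_of_nonneg_right h2 hε.le
        linarith
    _ = _ := by rw [one_mul]

end Pool.Agent.Y430.PN
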