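import Pool.Agent.Y430.PN.A

/-!
# Adjoint ideals are normed; `𝔄 ∘ 𝔏₂` is `2/3`-normed for every normed ideal `𝔄`
-/

set_option autoImplicit false
set_option maxHeartbeats 400000

open Module NormedSpace MeasureTheory
open scoped ENNReal

namespace Pool.Agent.Y430.PN

open Pool.Agent.Helper362.ProdId Pool.Agent.Helper362.Ideals

variable {𝕜 : Type} [RCLike 𝕜]

theorem norm_mkQL_comp {Y Z : Type} [NormedAddCommGroup Y] [NormedSpace 𝕜 Y]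
    [NormedAddCommGroup Z] [NormedSpace 𝕜 Z] (L : Submodule 𝕜 Z) [IsClosed (L : Set Z)]
    (R : Y →L[𝕜] Z) : ‖L.mkQL ∘L R‖ ≤ ‖R‖ :=
  ContinuousLinearMap.opNorm_le_bound _ (norm_nonneg _) fun x =>
    (Submodule.Quotient.norm_mk_le L (R x)).trans (R.le_opNorm x)

section

variable {W X Y Z : Type} [NormedAddCommGroup W] [NormedSpace 𝕜 W]
    [CompleteSpace W] [NormedAddCommGroup X] [NormedSpace 𝕜 X] [CompleteSpace X]
    [NormedAddCommGroup Y] [NormedSpace 𝕜 Y] [CompleteSpace Y]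
    [NormedAddCommGroup Z] [NormedSpace 𝕜 Z] [CompleteSpace Z]

theorem traceVal_zero (M : Submodule 𝕜 X) (L : Submodule 𝕜 Y)
    [IsClosed (L : Set Y)] (S : (Y ⧸ L) →L[𝕜] M) : traceVal (0 : X →L[𝕜] Y) M L S = 0 := by
  show ‖Pool.Agent.Helper362.Ideals.tr (L.mkQL ∘L (0 : X →L[𝕜] Y) ∘L M.subtypeL ∘L S)‖ = 0
  have h1 : L.mkQL ∘L (0 : X →L[𝕜] Y) ∘L M.subtypeL ∘L S = 0 := by
    rw [ContinuousLinearMap.zero_comp, ContinuousLinearMap.comp_zero]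
  rw [h1, tr_zero, norm_zero]

theorem traceVal_smul (T : X →L[𝕜] Y) (M : Submodule 𝕜 X) (L : Submodule 𝕜 Y)
    [IsClosed (L : Set Y)] (c : 𝕜) (S : (Y ⧸ L) →L[𝕜] M) :
    traceVal T M L (c • S) = ‖c‖ * traceVal T M L S := by
  show ‖tr (L.mkQL ∘L T ∘L M.subtypeL ∘L (c • S))‖ = ‖c‖ * ‖tr (L.mkQL ∘L T ∘L M.subtypeL ∘L S)‖
  have h1 : L.mkQL ∘L T ∘L M.subtypeL ∘L (c • S) = c • (L.mkQL ∘L T ∘L M.subtypeL ∘L S) := by
    rw [ContinuousLinearMap.comp_smul, ContinuousLinearMap.comp_smul,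
      ContinuousLinearMap.comp_smul]
  rw [h1, tr_smul, norm_mul]

theorem traceVal_add (T T' : X →L[𝕜] Y) (M : Submodule 𝕜 X) (L : Submodule 𝕜 Y)
    [IsClosed (L : Set Y)] (S : (Y ⧸ L) →L[𝕜] M) :
    traceVal (T + T') M L S ≤ traceVal T M L S + traceVal T' M L S := by
  show ‖tr (L.mkQL ∘L (T + T') ∘L M.subtypeL ∘L S)‖ ≤ ‖tr (L.mkQL ∘L T ∘L M.subtypeL ∘L S)‖ +
    ‖tr (L.mkQL ∘L T' ∘L M.subtypeL ∘L S)‖
  have h1 : L.mkQL ∘L (T + T') ∘L M.subtypeL ∘L S =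
      L.mkQL ∘L T ∘L M.subtypeL ∘L S + L.mkQL ∘L T' ∘L M.subtypeL ∘L S := by
    rw [ContinuousLinearMap.add_comp, ContinuousLinearMap.comp_add]
  rw [h1, tr_add]
  exact norm_add_le _ _

theorem adj_add (A : IdealFn 𝕜) (S T : X →L[𝕜] Y) :
    (adj A).val (S + T) ≤ (adj A).val S + (adj A).val T := by
  show adjVal A (S + T) ≤ adjVal A S + adjVal A T
  refine sSup_le ?_
  rintro c ⟨M, L, hM, hL, hMc, hLc, U, hU, rfl⟩
  refine (ENNReal.ofReal_le_ofReal (traceVal_add S T M L U)).trans ?_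
  refine ENNReal.ofReal_add_le.trans (add_le_add ?_ ?_)
  · exact le_sSup ⟨M, L, hM, hL, hMc, hLc, U, hU, rfl⟩
  · exact le_sSup ⟨M, L, hM, hL, hMc, hLc, U, hU, rfl⟩

theorem adj_ideal {A : IdealFn 𝕜} (hA : Idl A) (S : W →L[𝕜] X) (T : X →L[𝕜] Y) (R : Y →L[𝕜] Z) :
    adjVal A (R ∘L T ∘L S) ≤ ‖R‖ₑ * adjVal A T * ‖S‖ₑ := by
  refine sSup_le ?_
  rintro c ⟨M, L, hM, hL, hMc, hLc, U, hU, rfl⟩
  by_cases hR : R = 0
  · rw [hR, ContinuousLinearMap.zero_comp, traceVal_zero, ENNReal.ofReal_zero]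
    exact bot_le
  by_cases hS : S = 0
  · rw [hS, ContinuousLinearMap.comp_zero, ContinuousLinearMap.comp_zero, traceVal_zero,
      ENNReal.ofReal_zero]
    exact bot_le
  let q : Y →L[𝕜] Z ⧸ L := L.mkQL ∘L R
  let M' : Submodule 𝕜 X := M.map (S : W →ₗ[𝕜] X)
  let L' : Submodule 𝕜 Y := LinearMap.ker (q : Y →ₗ[𝕜] Z ⧸ L)
  have i1 : FiniteDimensional 𝕜 M' := inferInstance
  have i2 : FiniteDimensional 𝕜 (Y ⧸ L') :=
    LinearEquiv.finiteDimensional (LinearMap.quotKerEquivRange (q : Y →ₗ[𝕜] Z ⧸ L)).symm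
  have i3 : CompleteSpace M' := FiniteDimensional.complete 𝕜 _
  have i4 : IsClosed (L' : Set Y) := q.isClosed_ker
  let R' : (Y ⧸ L') →L[𝕜] Z ⧸ L := L'.liftQL q le_rfl
  let S' : M →L[𝕜] M' := (S ∘L M.subtypeL).codRestrict M' fun x => ⟨x, x.2, rfl⟩
  have hR' : ‖R'‖ ≤ ‖R‖ := (norm_lift_le L' q le_rfl).trans (norm_mkQL_comp L R)
  have hS' : ‖S'‖ ≤ ‖S‖ := by
    refine ContinuousLinearMap.opNorm_le_bound _ (norm_nonneg _) fun x => ?_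
    exact S.le_opNorm x
  let G : (Y ⧸ L') →L[𝕜] M' := S' ∘L U ∘L R'
  have hG : A.val G ≤ ‖S‖ₑ * ‖R‖ₑ := by
    have h1 : A.val G ≤ ‖S'‖ₑ * A.val U * ‖R'‖ₑ := hA _ _ _ _ R' U S'
    refine h1.trans ?_
    have h2 : ‖S'‖ₑ ≤ ‖S‖ₑ := by
      rw [← ofReal_norm, ← ofReal_norm]
      exact ENNReal.ofReal_le_ofReal hS'
    have h3 : ‖R'‖ₑ ≤ ‖R‖ₑ := by
      rw [← ofReal_norm, ← ofReal_norm]
      exact ENNReal.ofReal_le_ofReal hR'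
    calc ‖S'‖ₑ * A.val U * ‖R'‖ₑ ≤ ‖S‖ₑ * 1 * ‖R‖ₑ := mul_le_mul' (mul_le_mul' h2 hU) h3
      _ = _ := by rw [mul_one]
  have htr : traceVal (R ∘L T ∘L S) M L U = traceVal T M' L' G := by
    show ‖tr (L.mkQL ∘L (R ∘L T ∘L S) ∘L M.subtypeL ∘L U)‖ =
      ‖tr (L'.mkQL ∘L T ∘L M'.subtypeL ∘L G)‖
    have h1 : L.mkQL ∘L (R ∘L T ∘L S) ∘L M.subtypeL ∘L U =
        R' ∘L (L'.mkQL ∘L T ∘L M'.subtypeL ∘L S' ∘L U) := by
      ext x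
      rfl
    rw [h1, tr_comm]
    rfl
  rw [htr]
  set κ : ℝ := ‖R‖ * ‖S‖ with hκ
  have hκ0 : 0 < κ := mul_pos (norm_pos_iff.2 hR) (norm_pos_iff.2 hS)
  have hκe : ENNReal.ofReal κ = ‖R‖ₑ * ‖S‖ₑ := by
    rw [hκ, ENNReal.ofReal_mul (norm_nonneg _), ofReal_norm, ofReal_norm]
  let V : (Y ⧸ L') →L[𝕜] M' := ((κ⁻¹ : ℝ) : 𝕜) • G
  have hcn : ‖((κ⁻¹ : ℝ) : 𝕜)‖ = κ⁻¹ := by
    rw [RCLike.norm_ofReal, abs_of_pos (inv_pos.2 hκ0)]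
  have hV : A.val V ≤ 1 := by
    refine (smul_le hA _ _).trans ?_
    rw [← ofReal_norm, hcn]
    calc ENNReal.ofReal κ⁻¹ * A.val G ≤ ENNReal.ofReal κ⁻¹ * ENNReal.ofReal κ := by
          refine mul_le_mul' le_rfl (hG.trans (le_of_eq ?_))
          rw [hκe, mul_comm]
      _ = 1 := by
          rw [← ENNReal.ofReal_mul (inv_pos.2 hκ0).le, inv_mul_cancel₀ hκ0.ne',
            ENNReal.ofReal_one]
  have h4 : traceVal T M' L' V = κ⁻¹ * traceVal T M' L' G := by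
    have h5 := traceVal_smul T M' L' ((κ⁻¹ : ℝ) : 𝕜) G
    rwa [hcn] at h5
  have h5 : traceVal T M' L' G = κ * traceVal T M' L' V := by
    rw [h4, ← mul_assoc, mul_inv_cancel₀ hκ0.ne', one_mul]
  have h6 : ENNReal.ofReal (traceVal T M' L' V) ≤ adjVal A T :=
    le_sSup ⟨M', L', i1, i2, i3, i4, V, hV, rfl⟩
  rw [h5, ENNReal.ofReal_mul hκ0.le, hκe]
  calc ‖R‖ₑ * ‖S‖ₑ * ENNReal.ofReal (traceVal T M' L' V) ≤ ‖R‖ₑ * ‖S‖ₑ * adjVal A T :=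
        mul_le_mul' le_rfl h6
    _ = _ := by ring

end

theorem idl_adj {A : IdealFn 𝕜} (hA : Idl A) : Idl (adj A) := by
  intro W X Y Z _ _ _ _ _ _ _ _ _ _ _ _ S T R
  exact adj_ideal hA S T R

theorem idl_A0 : Idl (A0 𝕜) :=
  idl_adj (idl_adj (idl_prod (idl_LL 1) (idl_LL ∞)))

section

variable {X Y : Type} [NormedAddCommGroup X] [NormedSpace 𝕜 X] [CompleteSpace X]
    [NormedAddCommGroup Y] [NormedSpace 𝕜 Y] [CompleteSpace Y]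

theorem enorm_le_hilbertVal (U : X →L[𝕜] Y) : ‖U‖ₑ ≤ hilbertVal U := by
  refine le_sInf ?_
  rintro c ⟨H, _, _, _, S, R, rfl, rfl⟩
  rw [← ofReal_norm]
  exact ENNReal.ofReal_le_ofReal (ContinuousLinearMap.opNorm_comp_le _ _)

theorem le_prodVal {A : IdealFn 𝕜} (hA : Idl A) (T : X →L[𝕜] Y) :
    A.val T ≤ prodVal A (L2 𝕜) T := by
  refine le_sInf ?_
  rintro c ⟨Z, _, _, _, U, V, rfl, hV, hU, rfl⟩
  exact (right hA U V).trans (mul_le_mul' le_rfl (enorm_le_hilbertVal U))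

theorem eq_zero {N : IdealFn 𝕜} (hN : Idl N) (hid : N.val (ContinuousLinearMap.id 𝕜 𝕜) ≠ 0)
    (T : X →L[𝕜] Y) (h : N.val T = 0) : T = 0 := by
  by_contra hT
  obtain ⟨x, hx⟩ : ∃ x, T x ≠ 0 := by
    by_contra hc
    push Not at hc
    exact hT (ContinuousLinearMap.ext hc)
  obtain ⟨φ, -, hφ⟩ := exists_dual_vector'' 𝕜 (T x)
  have h1 : φ ∘L T ∘L (ContinuousLinearMap.toSpanSingleton 𝕜 x) =
      (φ (T x)) • ContinuousLinearMap.id 𝕜 𝕜 := by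
    ext
    show φ (T ((1 : 𝕜) • x)) = φ (T x) • (1 : 𝕜)
    rw [one_smul, smul_eq_mul, mul_one]
  have h2 := hN _ _ _ _ (ContinuousLinearMap.toSpanSingleton 𝕜 x) T φ
  unfold IdealAt at h2
  rw [h1, smul_eq hN, h, mul_zero, zero_mul] at h2
  have h3 := le_antisymm h2 bot_le
  have h3' : ‖φ (T x)‖ₑ * N.val (ContinuousLinearMap.id 𝕜 𝕜) = 0 := h3
  rcases mul_eq_zero.1 h3' with h4 | h4
  · have h5 := enorm_eq_zero' h4
    rw [hφ] at h5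
    have h6 : ‖T x‖ = 0 := by
      have : ((‖T x‖ : ℝ) : 𝕜) = ((0 : ℝ) : 𝕜) := by rw [h5, RCLike.ofReal_zero]
      exact RCLike.ofReal_injective this
    exact hx (norm_eq_zero.1 h6)
  · exact hid h4

end

theorem A0_id_ne : (A0 𝕜).val (ContinuousLinearMap.id 𝕜 𝕜) ≠ 0 := by
  intro h0
  have h1 : (prod (A0 𝕜) (L2 𝕜)).val (ContinuousLinearMap.id 𝕜 𝕜) = 0 := by
    refine le_antisymm ?_ bot_le
    show prodVal (A0 𝕜) (L2 𝕜) (ContinuousLinearMap.id 𝕜 𝕜) ≤ 0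
    have h2 : (L2 𝕜).val (ContinuousLinearMap.id 𝕜 𝕜) < ⊤ := by
      show hilbertVal (ContinuousLinearMap.id 𝕜 𝕜) < ⊤
      exact lt_of_le_of_lt (sInf_le ⟨𝕜, inferInstance, inferInstance, inferInstance,
        ContinuousLinearMap.id 𝕜 𝕜, ContinuousLinearMap.id 𝕜 𝕜, rfl, rfl⟩) ENNReal.ofReal_lt_top
    refine sInf_le_of_le ⟨𝕜, inferInstance, inferInstance, inferInstance,
      ContinuousLinearMap.id 𝕜 𝕜, ContinuousLinearMap.id 𝕜 𝕜, rfl, ?_, h2, rfl⟩ ?_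
    · rw [h0]
      exact ENNReal.zero_lt_top
    · rw [h0, zero_mul]
  have h2 := T4 (𝕜 := 𝕜) (n := 1) one_pos (ContinuousLinearMap.id 𝕜 𝕜) (fun _ => (1 : 𝕜))
    (by
      intro ε hε
      rw [Fin.sum_univ_one, norm_smul, RCLike.norm_ofReal, hε 0, norm_one, one_mul])
    (fun _ => ContinuousLinearMap.id 𝕜 𝕜)
    (by
      intro ε
      rw [Fin.sum_univ_one, norm_smul, RCLike.norm_ofReal, abs_sg, one_mul]
      exact ContinuousLinearMap.norm_id_le)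
    (by
      intro i j
      rw [if_pos (Subsingleton.elim j i)]
      simp)
    prod_id
  rw [h1, mul_zero, Nat.cast_one, Real.sqrt_one, ENNReal.ofReal_one] at h2
  exact absurd h2 (by simp)

theorem A0_normed : IsIdealNorm (A0 𝕜) := by
  refine ⟨?_, idl_A0⟩
  intro X Y _ _ _ _ _ _
  refine ⟨fun S T => adj_add _ S T, fun c T => smul_eq idl_A0 c T, fun T h => ?_⟩
  exact eq_zero idl_A0 A0_id_ne T h

/-! ### the `2/3`-triangle inequality -/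

section

variable {X Y : Type} [NormedAddCommGroup X] [NormedSpace 𝕜 X] [CompleteSpace X]
    [NormedAddCommGroup Y] [NormedSpace 𝕜 Y] [CompleteSpace Y]

theorem fact {A : IdealFn 𝕜} (hA : Idl A) (T : X →L[𝕜] Y) (u : ℝ) (hu : 0 < u)
    (h : prodVal A (L2 𝕜) T < ENNReal.ofReal (u * √u)) :
    ∃ (H : Type) (_ : NormedAddCommGroup H) (_ : InnerProductSpace 𝕜 H) (_ : CompleteSpace H)
      (S : X →L[𝕜] H) (B : H →L[𝕜] Y), T = B ∘L S ∧ ‖S‖ ≤ √u ∧ A.val B ≤ ENNReal.ofReal u := by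
  obtain ⟨c, ⟨Z, _, _, _, U, V, hT, hV, hU, rfl⟩, hc⟩ := sInf_lt_iff.1 h
  have hU' : hilbertVal U < ⊤ := hU
  obtain ⟨c, ⟨H, _, _, _, S0, R0, hUf, rfl⟩, hc'⟩ : ∃ c ∈ {c | ∃ (H : Type)
      (_ : NormedAddCommGroup H) (_ : InnerProductSpace 𝕜 H), CompleteSpace H ∧
        HilbertFactor U H c}, A.val V * c < ENNReal.ofReal (u * √u) := by
    by_contra hcon
    push Not at hcon
    obtain ⟨c, hc1, _⟩ := sInf_lt_iff.mp hU'
    have h2 := le_mul_sInf hV.ne ⟨c, hc1⟩ hcon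
    exact absurd hc (not_lt.2 h2)
  have hsu : 0 < √u := Real.sqrt_pos.2 hu
  by_cases hS : S0 = 0
  · refine ⟨H, inferInstance, inferInstance, inferInstance, 0, 0, ?_, ?_, ?_⟩
    · rw [hT, hUf, hS, ContinuousLinearMap.comp_zero, ContinuousLinearMap.comp_zero,
        ContinuousLinearMap.comp_zero]
    · rw [norm_zero]
      exact hsu.le
    · rw [zero hA]
      exact bot_le
  have hS0 : 0 < ‖S0‖ := norm_pos_iff.2 hS
  set l : ℝ := √u / ‖S0‖ with hl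
  have hl0 : 0 < l := div_pos hsu hS0
  refine ⟨H, inferInstance, inferInstance, inferInstance, ((l : ℝ) : 𝕜) • S0,
    ((l⁻¹ : ℝ) : 𝕜) • (V ∘L R0), ?_, ?_, ?_⟩
  · rw [ContinuousLinearMap.comp_smul, ContinuousLinearMap.smul_comp, smul_smul,
      ← RCLike.ofReal_mul, mul_inv_cancel₀ hl0.ne', RCLike.ofReal_one, one_smul, hT, hUf]
    rfl
  · rw [norm_smul, RCLike.norm_ofReal, abs_of_pos hl0, hl, div_mul_cancel₀ _ hS0.ne']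
  · have e1 := left hA R0 V
    have e2 : A.val (V ∘L R0) ≤ A.val V * ENNReal.ofReal ‖R0‖ := by
      have := right hA R0 V
      rwa [← ofReal_norm] at this
    refine (smul_le hA _ _).trans ?_
    rw [← ofReal_norm, RCLike.norm_ofReal, abs_of_pos (inv_pos.2 hl0)]
    calc ENNReal.ofReal l⁻¹ * A.val (V ∘L R0)
        ≤ ENNReal.ofReal l⁻¹ * (A.val V * ENNReal.ofReal ‖R0‖) := mul_le_mul' le_rfl e2
      _ = ENNReal.ofReal (√u)⁻¹ * (A.val V * ENNReal.ofReal (‖R0‖ * ‖S0‖)) := by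
          have e3 : l⁻¹ = (√u)⁻¹ * ‖S0‖ := by
            rw [hl, inv_div]
            ring
          rw [e3, ENNReal.ofReal_mul (inv_pos.2 hsu).le, ENNReal.ofReal_mul (norm_nonneg R0)]
          ring
      _ ≤ ENNReal.ofReal (√u)⁻¹ * ENNReal.ofReal (u * √u) := mul_le_mul' le_rfl hc'.le
      _ = ENNReal.ofReal u := by
          rw [← ENNReal.ofReal_mul (inv_pos.2 hsu).le]
          congr 1
          field_simp

theorem tri_aux {A : IdealFn 𝕜} (hA : IsIdealNorm A) (T₁ T₂ : X →L[𝕜] Y) (u₁ u₂ : ℝ)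
    (hu₁ : 0 < u₁) (hu₂ : 0 < u₂) (h₁ : prodVal A (L2 𝕜) T₁ < ENNReal.ofReal (u₁ * √u₁))
    (h₂ : prodVal A (L2 𝕜) T₂ < ENNReal.ofReal (u₂ * √u₂)) :
    prodVal A (L2 𝕜) (T₁ + T₂) ≤ ENNReal.ofReal ((u₁ + u₂) * √(u₁ + u₂)) := by
  obtain ⟨H₁, _, _, _, S₁, B₁, e₁, f₁, g₁⟩ := fact hA.2 T₁ u₁ hu₁ h₁
  obtain ⟨H₂, _, _, _, S₂, B₂, e₂, f₂, g₂⟩ := fact hA.2 T₂ u₂ hu₂ h₂
  let e := WithLp.prodContinuousLinearEquiv 2 𝕜 H₁ H₂
  let S : X →L[𝕜] WithLp 2 (H₁ × H₂) := (e.symm : H₁ × H₂ →L[𝕜] WithLp 2 (H₁ × H₂)) ∘L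
    (S₁.prod S₂)
  let P₁ : WithLp 2 (H₁ × H₂) →L[𝕜] H₁ := (ContinuousLinearMap.fst 𝕜 H₁ H₂) ∘L
    (e : WithLp 2 (H₁ × H₂) →L[𝕜] H₁ × H₂)
  let P₂ : WithLp 2 (H₁ × H₂) →L[𝕜] H₂ := (ContinuousLinearMap.snd 𝕜 H₁ H₂) ∘L
    (e : WithLp 2 (H₁ × H₂) →L[𝕜] H₁ × H₂)
  have hu : 0 < u₁ + u₂ := by positivity
  have hS : ‖S‖ ≤ √(u₁ + u₂) := by
    refine ContinuousLinearMap.opNorm_le_bound _ (Real.sqrt_nonneg _) fun x => ?_
    have h3 : ‖S x‖ ^ 2 = ‖S₁ x‖ ^ 2 + ‖S₂ x‖ ^ 2 := WithLp.prod_norm_sq_eq_of_L2 (S x)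
    have h4 : ‖S₁ x‖ ^ 2 ≤ u₁ * ‖x‖ ^ 2 := by
      have h5 : ‖S₁ x‖ ≤ √u₁ * ‖x‖ :=
        (S₁.le_opNorm x).trans (mul_le_mul_of_nonneg_right f₁ (norm_nonneg _))
      calc ‖S₁ x‖ ^ 2 ≤ (√u₁ * ‖x‖) ^ 2 := pow_le_pow_left₀ (norm_nonneg _) h5 2
        _ = u₁ * ‖x‖ ^ 2 := by rw [mul_pow, Real.sq_sqrt hu₁.le]
    have h5 : ‖S₂ x‖ ^ 2 ≤ u₂ * ‖x‖ ^ 2 := by
      have h5 : ‖S₂ x‖ ≤ √u₂ * ‖x‖ :=
        (S₂.le_opNorm x).trans (mul_le_mul_of_nonneg_right f₂ (norm_nonneg _))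
      calc ‖S₂ x‖ ^ 2 ≤ (√u₂ * ‖x‖) ^ 2 := pow_le_pow_left₀ (norm_nonneg _) h5 2
        _ = u₂ * ‖x‖ ^ 2 := by rw [mul_pow, Real.sq_sqrt hu₂.le]
    refine le_of_sq_le_sq ?_ (by positivity)
    rw [h3, mul_pow, Real.sq_sqrt hu.le]
    linarith
  have hP₁ : ‖P₁‖ₑ ≤ 1 := by
    refine enorm_le_one _ (ContinuousLinearMap.opNorm_le_bound _ zero_le_one fun x => ?_)
    have h3 := WithLp.prod_norm_sq_eq_of_L2 x
    have h4 : ‖P₁ x‖ = ‖x.fst‖ := rfl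
    rw [h4, one_mul]
    refine le_of_sq_le_sq ?_ (norm_nonneg _)
    rw [h3]
    have := sq_nonneg ‖x.snd‖
    linarith
  have hP₂ : ‖P₂‖ₑ ≤ 1 := by
    refine enorm_le_one _ (ContinuousLinearMap.opNorm_le_bound _ zero_le_one fun x => ?_)
    have h3 := WithLp.prod_norm_sq_eq_of_L2 x
    have h4 : ‖P₂ x‖ = ‖x.snd‖ := rfl
    rw [h4, one_mul]
    refine le_of_sq_le_sq ?_ (norm_nonneg _)
    rw [h3]
    have := sq_nonneg ‖x.fst‖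
    linarith
  have hB : A.val (B₁ ∘L P₁ + B₂ ∘L P₂) ≤ ENNReal.ofReal (u₁ + u₂) := by
    refine ((hA.1 _ _).1 _ _).trans ?_
    rw [ENNReal.ofReal_add hu₁.le hu₂.le]
    refine add_le_add ?_ ?_
    · calc A.val (B₁ ∘L P₁) ≤ A.val B₁ * ‖P₁‖ₑ := right hA.2 P₁ B₁
        _ ≤ ENNReal.ofReal u₁ * 1 := mul_le_mul' g₁ hP₁
        _ = _ := mul_one _
    · calc A.val (B₂ ∘L P₂) ≤ A.val B₂ * ‖P₂‖ₑ := right hA.2 P₂ B₂
        _ ≤ ENNReal.ofReal u₂ * 1 := mul_le_mul' g₂ hP₂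
        _ = _ := mul_one _
  have hL : (L2 𝕜).val S ≤ ENNReal.ofReal √(u₁ + u₂) := by
    show hilbertVal S ≤ _
    refine sInf_le_of_le ⟨WithLp 2 (H₁ × H₂), inferInstance, inferInstance, inferInstance, S,
      ContinuousLinearMap.id 𝕜 _, ?_, rfl⟩ ?_
    · rw [ContinuousLinearMap.id_comp]
    · refine ENNReal.ofReal_le_ofReal ?_
      calc ‖ContinuousLinearMap.id 𝕜 (WithLp 2 (H₁ × H₂))‖ * ‖S‖ ≤ 1 * √(u₁ + u₂) :=
            mul_le_mul ContinuousLinearMap.norm_id_le hS (norm_nonneg _) zero_le_one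
        _ = _ := one_mul _
  refine sInf_le_of_le ⟨WithLp 2 (H₁ × H₂), inferInstance, inferInstance, inferInstance, S,
    B₁ ∘L P₁ + B₂ ∘L P₂, ?_, ?_, ?_, rfl⟩ ?_
  · rw [e₁, e₂]
    ext x
    rfl
  · exact hB.trans_lt ENNReal.ofReal_lt_top
  · exact hL.trans_lt ENNReal.ofReal_lt_top
  · rw [ENNReal.ofReal_mul hu.le]
    exact mul_le_mul' hB hL

theorem rpow_aux (u : ℝ) (hu : 0 < u) :
    (ENNReal.ofReal (u * √u)) = (ENNReal.ofReal u) ^ (3 / 2 : ℝ) := by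
  rw [ENNReal.ofReal_rpow_of_pos hu]
  congr 1
  rw [show (3 / 2 : ℝ) = 1 + 1 / 2 by norm_num, Real.rpow_add hu, Real.rpow_one,
    ← Real.sqrt_eq_rpow]

theorem two_thirds {A : IdealFn 𝕜} (hA : IsIdealNorm A) (T₁ T₂ : X →L[𝕜] Y) :
    prodVal A (L2 𝕜) (T₁ + T₂) ^ (2 / 3 : ℝ) ≤
      prodVal A (L2 𝕜) T₁ ^ (2 / 3 : ℝ) + prodVal A (L2 𝕜) T₂ ^ (2 / 3 : ℝ) := by
  refine ENNReal.le_of_forall_pos_le_add fun ε hε hlt => ?_
  set P₁ := prodVal A (L2 𝕜) T₁ with hP₁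
  set P₂ := prodVal A (L2 𝕜) T₂ with hP₂
  have hε' : (0 : ℝ) < ε := hε
  have t₁ : P₁ ^ (2 / 3 : ℝ) ≠ ⊤ := (lt_of_le_of_lt le_self_add hlt).ne
  have t₂ : P₂ ^ (2 / 3 : ℝ) ≠ ⊤ := (lt_of_le_of_lt le_add_self hlt).ne
  have key : ∀ P : ℝ≥0∞, P ^ (2 / 3 : ℝ) ≠ ⊤ → P < ENNReal.ofReal
      (((P ^ (2 / 3 : ℝ)).toReal + ε / 2) * √((P ^ (2 / 3 : ℝ)).toReal + ε / 2)) := by
    intro P hP
    have hu : 0 < (P ^ (2 / 3 : ℝ)).toReal + ε / 2 := by positivity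
    rw [rpow_aux _ hu]
    have e1 : P = (P ^ (2 / 3 : ℝ)) ^ (3 / 2 : ℝ) := by
      rw [← ENNReal.rpow_mul]
      norm_num
    conv_lhs => rw [e1]
    refine ENNReal.rpow_lt_rpow ?_ (by norm_num)
    rw [ENNReal.lt_ofReal_iff_toReal_lt hP]
    linarith
  have h1 := tri_aux hA T₁ T₂ ((P₁ ^ (2 / 3 : ℝ)).toReal + ε / 2)
    ((P₂ ^ (2 / 3 : ℝ)).toReal + ε / 2) (by positivity) (by positivity) (key P₁ t₁) (key P₂ t₂)
  rw [rpow_aux _ (by positivity)] at h1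
  have h2 := ENNReal.rpow_le_rpow h1 (show (0 : ℝ) ≤ 2 / 3 by norm_num)
  refine h2.trans (le_of_eq ?_)
  rw [← ENNReal.rpow_mul, show (3 / 2 : ℝ) * (2 / 3) = 1 by norm_num, ENNReal.rpow_one]
  have e2 : (P₁ ^ (2 / 3 : ℝ)).toReal + ε / 2 + ((P₂ ^ (2 / 3 : ℝ)).toReal + ε / 2) =
      (P₁ ^ (2 / 3 : ℝ)).toReal + (P₂ ^ (2 / 3 : ℝ)).toReal + ε := by ring
  rw [e2, ENNReal.ofReal_add (by positivity) hε'.le, ENNReal.ofReal_add ENNReal.toReal_nonneg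
    ENNReal.toReal_nonneg, ENNReal.ofReal_toReal t₁, ENNReal.ofReal_toReal t₂,
    ENNReal.ofReal_coe_nnreal]

end

end Pool.Agent.Y430.PN
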