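import Pool.Agent.Y430.PN.B

/-!
# Ideal `r`-norms; the product ideal `𝔄₀ ∘ 𝔏₂` is `r`-normed exactly for `r ≤ 2/3`
-/

set_option autoImplicit false
set_option maxHeartbeats 400000

open Module NormedSpace MeasureTheory
open scoped ENNReal

namespace Pool.Agent.Y430.PN

open Pool.Agent.Helper362.ProdId Pool.Agent.Helper362.Ideals

section defs

variable {𝕜 : Type} [RCLike 𝕜]

/-- The conditions on an ideal `r`-norm which concern the operators from `X` to `Y`: the `r`-triangle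
inequality `N(S + T)^r ≤ N(S)^r + N(T)^r`, homogeneity and definiteness. -/
def RNormAt (r : ℝ) (N : IdealFn 𝕜) (X Y : Type) [NormedAddCommGroup X] [NormedSpace 𝕜 X]
    [CompleteSpace X] [NormedAddCommGroup Y] [NormedSpace 𝕜 Y] [CompleteSpace Y] : Prop :=
  (∀ S T : X →L[𝕜] Y, N.val (S + T) ^ r ≤ N.val S ^ r + N.val T ^ r) ∧
    (∀ (c : 𝕜) (T : X →L[𝕜] Y), N.val (c • T) = ‖c‖ₑ * N.val T) ∧
    (∀ T : X →L[𝕜] Y, N.val T = 0 → T = 0)

/-- `N` is an ideal `r`-norm. For `r = 1` this is `IsIdealNorm`. -/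
def IsIdealRNorm (r : ℝ) (N : IdealFn 𝕜) : Prop :=
  (∀ (X Y : Type) [NormedAddCommGroup X] [NormedSpace 𝕜 X] [CompleteSpace X]
    [NormedAddCommGroup Y] [NormedSpace 𝕜 Y] [CompleteSpace Y], RNormAt r N X Y) ∧
  (∀ (W X Y Z : Type) [NormedAddCommGroup W] [NormedSpace 𝕜 W]
    [CompleteSpace W] [NormedAddCommGroup X] [NormedSpace 𝕜 X] [CompleteSpace X]
    [NormedAddCommGroup Y] [NormedSpace 𝕜 Y] [CompleteSpace Y]
    [NormedAddCommGroup Z] [NormedSpace 𝕜 Z] [CompleteSpace Z]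
    (S : W →L[𝕜] X) (T : X →L[𝕜] Y) (R : Y →L[𝕜] Z), IdealAt N S T R)

/-- The quasi-normed ideal `Q` is `r`-normed: some ideal `r`-norm is equivalent to it on every
component (with a constant that may depend on the component). For `r = 1` this is `IsNormed`. -/
def IsRNormed (r : ℝ) (Q : IdealFn 𝕜) : Prop :=
  ∃ N : IdealFn 𝕜, IsIdealRNorm r N ∧
    ∀ (X Y : Type) [NormedAddCommGroup X] [NormedSpace 𝕜 X] [CompleteSpace X]
      [NormedAddCommGroup Y] [NormedSpace 𝕜 Y] [CompleteSpace Y], EquivAt Q N X Y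

end defs

variable {𝕜 : Type} [RCLike 𝕜]

theorem rnorm_one (N : IdealFn 𝕜) : IsIdealRNorm 1 N ↔ IsIdealNorm N := by
  unfold IsIdealRNorm IsIdealNorm RNormAt NormAt
  simp only [ENNReal.rpow_one]

theorem rnormed_one (Q : IdealFn 𝕜) : IsRNormed 1 Q ↔ IsNormed Q := by
  unfold IsRNormed IsNormed
  simp only [rnorm_one]

/-- For every normed ideal `𝔄` the quasi-norm of `𝔄 ∘ 𝔏₂` is an ideal `2/3`-norm. -/
theorem prod_L2 {A : IdealFn 𝕜} (hA : IsIdealNorm A) : IsIdealRNorm (2 / 3) (prod A (L2 𝕜)) := by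
  have hI : Idl (prod A (L2 𝕜)) := idl_prod hA.2 idl_L2
  refine ⟨?_, hI⟩
  intro X Y _ _ _ _ _ _
  refine ⟨fun S T => two_thirds hA S T, fun c T => smul_eq hI c T, fun T h => ?_⟩
  refine (hA.1 X Y).2.2 T (le_antisymm ?_ bot_le)
  exact (le_prodVal hA.2 T).trans (le_of_eq h)

theorem rnorm_mono {r r' : ℝ} (hr : 0 < r) (hrr : r ≤ r') {N : IdealFn 𝕜}
    (hN : IsIdealRNorm r' N) : IsIdealRNorm r N := by
  refine ⟨?_, hN.2⟩
  intro X Y _ _ _ _ _ _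
  refine ⟨fun S T => ?_, (hN.1 X Y).2⟩
  have hr' : 0 < r' := lt_of_lt_of_le hr hrr
  have e1 : ∀ P : ℝ≥0∞, P ^ r = (P ^ r') ^ (r / r') := by
    intro P
    rw [← ENNReal.rpow_mul, mul_div_cancel₀ _ hr'.ne']
  rw [e1, e1 (N.val S), e1 (N.val T)]
  refine (ENNReal.rpow_le_rpow ((hN.1 X Y).1 S T) (by positivity)).trans ?_
  exact ENNReal.rpow_add_le_add_rpow _ _ (by positivity) ((div_le_one hr').2 hrr)

theorem sum_le {r : ℝ} (hr : 0 < r) {N : IdealFn 𝕜} (hN : IsIdealRNorm r N) {X Y : Type}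
    [NormedAddCommGroup X] [NormedSpace 𝕜 X] [CompleteSpace X] [NormedAddCommGroup Y]
    [NormedSpace 𝕜 Y] [CompleteSpace Y] {ι : Type} (s : Finset ι) (T : ι → X →L[𝕜] Y) :
    N.val (∑ i ∈ s, T i) ^ r ≤ ∑ i ∈ s, N.val (T i) ^ r := by
  classical
  induction s using Finset.induction_on with
  | empty =>
    rw [Finset.sum_empty, Finset.sum_empty, zero (show Idl N from hN.2), ENNReal.zero_rpow_of_pos hr]
  | insert a s ha ih =>
    rw [Finset.sum_insert ha, Finset.sum_insert ha]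
    exact ((hN.1 X Y).1 _ _).trans (add_le_add le_rfl ih)

theorem TTn_le {r : ℝ} (hr : 0 < r) {N : IdealFn 𝕜} (hN : IsIdealRNorm r N) (n : ℕ) :
    N.val (TTn 𝕜 n) ^ r ≤
      n * (ENNReal.ofReal (1 / (n : ℝ)) * N.val (ContinuousLinearMap.id 𝕜 𝕜)) ^ r := by
  unfold TTn
  refine (sum_le hr hN _ _).trans ?_
  have h1 : ∀ i : Fin n, N.val ((((1 / (n : ℝ)) : ℝ) : 𝕜) •
      ((ContinuousLinearMap.toSpanSingleton 𝕜 (uv 1 (i : ℕ) : lpN 𝕜 1)) ∘L
      (ContinuousLinearMap.id 𝕜 𝕜) ∘L (cf ∞ (i : ℕ)))) ≤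
      ENNReal.ofReal (1 / (n : ℝ)) * N.val (ContinuousLinearMap.id 𝕜 𝕜) := by
    intro i
    rw [(hN.1 _ _).2.1]
    have e1 : ‖(((1 / (n : ℝ)) : ℝ) : 𝕜)‖ₑ = ENNReal.ofReal (1 / (n : ℝ)) := by
      rw [← ofReal_norm, RCLike.norm_ofReal, abs_of_nonneg (by positivity)]
    rw [e1]
    refine mul_le_mul' le_rfl ?_
    refine (hN.2 _ _ _ _ (cf ∞ (i : ℕ)) (ContinuousLinearMap.id 𝕜 𝕜)
      (ContinuousLinearMap.toSpanSingleton 𝕜 (uv 1 (i : ℕ) : lpN 𝕜 1))).trans ?_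
    have e2 : ‖(cf ∞ (i : ℕ) : StrongDual 𝕜 (lpN 𝕜 ∞))‖ₑ ≤ 1 := enorm_le_one _ (norm_cf_le ∞ _)
    have e3 : ‖ContinuousLinearMap.toSpanSingleton 𝕜 (uv 1 (i : ℕ) : lpN 𝕜 1)‖ₑ ≤ 1 := by
      refine enorm_le_one _ ?_
      rw [ContinuousLinearMap.norm_toSpanSingleton]
      exact norm_uv_le _
    calc _ ≤ 1 * N.val (ContinuousLinearMap.id 𝕜 𝕜) * 1 := by gcongr
      _ = _ := by rw [one_mul, mul_one]
  refine (Finset.sum_le_sum (fun i _ => ENNReal.rpow_le_rpow (h1 i) hr.le)).trans ?_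
  rw [Finset.sum_const, Finset.card_univ, Fintype.card_fin, nsmul_eq_mul]

/-- an ideal `r`-norm with `r > 2/3` does not dominate the product quasi-norm on the component
`(ℓ_∞, ℓ₁)` -/
theorem not_dom {r : ℝ} (hr : 2 / 3 < r) {N : IdealFn 𝕜} (hN : IsIdealRNorm r N)
    (hid : N.val (ContinuousLinearMap.id 𝕜 𝕜) < ⊤) (C : ℝ≥0∞) (hC : C ≠ ⊤)
    (h : ∀ T : lpN 𝕜 ∞ →L[𝕜] lpN 𝕜 1, (prod (A0 𝕜) (L2 𝕜)).val T ≤ C * N.val T) : False := by
  have hr0 : 0 < r := by linarith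
  set I := N.val (ContinuousLinearMap.id 𝕜 𝕜) with hI
  set K : ℝ≥0∞ := ENNReal.ofReal 8 * C * I with hK
  have hKt : K ≠ ⊤ := ENNReal.mul_ne_top (ENNReal.mul_ne_top ENNReal.ofReal_ne_top hC) hid.ne
  have hmain : ∀ n : ℕ, 0 < n → ENNReal.ofReal (Real.sqrt n) ^ r ≤
      K ^ r * (n * ENNReal.ofReal (1 / (n : ℝ)) ^ r) := by
    intro n hn
    have h1 := TTn_le hr0 hN n
    have h2 : N.val (TTn 𝕜 n) ≠ ⊤ := by
      intro h3
      rw [h3, ENNReal.top_rpow_of_pos hr0] at h1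
      have h4 : (n : ℝ≥0∞) * (ENNReal.ofReal (1 / (n : ℝ)) * I) ^ r ≠ ⊤ :=
        ENNReal.mul_ne_top (ENNReal.natCast_ne_top n)
          (ENNReal.rpow_ne_top_of_nonneg hr0.le (ENNReal.mul_ne_top ENNReal.ofReal_ne_top hid.ne))
      exact h4 (le_antisymm le_top h1)
    have hQt : (prod (A0 𝕜) (L2 𝕜)).val (TTn 𝕜 n) < ⊤ :=
      (h _).trans_lt (ENNReal.mul_lt_top hC.lt_top h2.lt_top)
    have h4 := T4 hn (TTn 𝕜 n) (fun i => uv ∞ (i : ℕ)) (norm_sum_uv n)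
      (fun i => cf 1 (i : ℕ)) (signBd_cf n) (by
        intro i j
        rw [TTn_uv, map_smul, cf_apply, uv_apply, smul_eq_mul, mul_ite, mul_one, mul_zero]
        by_cases hij : j = i
        · rw [hij, if_pos rfl, if_pos rfl]
        · rw [if_neg hij, if_neg]
          intro h
          exact hij (Fin.ext h.symm)) hQt
    have h5 : ENNReal.ofReal (Real.sqrt n) ≤ ENNReal.ofReal 8 * (C * N.val (TTn 𝕜 n)) :=
      h4.trans (mul_le_mul' le_rfl (h _))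
    calc ENNReal.ofReal (Real.sqrt n) ^ r
        ≤ (ENNReal.ofReal 8 * (C * N.val (TTn 𝕜 n))) ^ r := ENNReal.rpow_le_rpow h5 hr0.le
      _ = (ENNReal.ofReal 8 * C) ^ r * N.val (TTn 𝕜 n) ^ r := by
          rw [← mul_assoc, ENNReal.mul_rpow_of_nonneg _ _ hr0.le]
      _ ≤ (ENNReal.ofReal 8 * C) ^ r * (n * (ENNReal.ofReal (1 / (n : ℝ)) * I) ^ r) :=
          mul_le_mul' le_rfl h1
      _ = K ^ r * (n * ENNReal.ofReal (1 / (n : ℝ)) ^ r) := by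
          have e1 : K ^ r = (ENNReal.ofReal 8 * C) ^ r * I ^ r := by
            rw [hK, ENNReal.mul_rpow_of_nonneg _ _ hr0.le]
          have e2 : (ENNReal.ofReal (1 / (n : ℝ)) * I) ^ r =
              ENNReal.ofReal (1 / (n : ℝ)) ^ r * I ^ r := ENNReal.mul_rpow_of_nonneg _ _ hr0.le
          rw [e1, e2]
          ring
  have hreal : ∀ n : ℕ, 0 < n → (n : ℝ) ^ (3 / 2 * r - 1) ≤ K.toReal ^ r := by
    intro n hn
    have hn' : (0 : ℝ) < n := by exact_mod_cast hn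
    have h1 := hmain n hn
    have h2 : ENNReal.ofReal ((Real.sqrt n) ^ r) ≤
        ENNReal.ofReal (K.toReal ^ r * (n * (1 / (n : ℝ)) ^ r)) := by
      rw [ENNReal.ofReal_mul (by positivity), ENNReal.ofReal_mul hn'.le,
        ← ENNReal.ofReal_rpow_of_nonneg (Real.sqrt_nonneg _) hr0.le,
        ← ENNReal.ofReal_rpow_of_nonneg ENNReal.toReal_nonneg hr0.le,
        ← ENNReal.ofReal_rpow_of_nonneg (by positivity) hr0.le, ENNReal.ofReal_toReal hKt,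
        ENNReal.ofReal_natCast]
      exact h1
    rw [ENNReal.ofReal_le_ofReal_iff (by positivity)] at h2
    have h3 : (Real.sqrt n) ^ r = (n : ℝ) ^ (r / 2) := by
      rw [Real.sqrt_eq_rpow, ← Real.rpow_mul hn'.le]
      congr 1
      ring
    have h4 : (n : ℝ) * (1 / (n : ℝ)) ^ r = (n : ℝ) ^ (1 - r) := by
      rw [one_div, Real.inv_rpow hn'.le, Real.rpow_sub hn', Real.rpow_one]
      rfl
    rw [h3, h4] at h2
    have h5 : (n : ℝ) ^ (3 / 2 * r - 1) = (n : ℝ) ^ (r / 2) * (n : ℝ) ^ (r - 1) := by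
      rw [← Real.rpow_add hn']
      congr 1
      ring
    rw [h5]
    calc (n : ℝ) ^ (r / 2) * (n : ℝ) ^ (r - 1)
        ≤ (K.toReal ^ r * (n : ℝ) ^ (1 - r)) * (n : ℝ) ^ (r - 1) :=
          mul_le_mul_of_nonneg_right h2 (by positivity)
      _ = K.toReal ^ r * ((n : ℝ) ^ (1 - r) * (n : ℝ) ^ (r - 1)) := by ring
      _ = K.toReal ^ r := by
          rw [← Real.rpow_add hn', show (1 - r) + (r - 1) = 0 by ring, Real.rpow_zero, mul_one]
  have hδ : 0 < 3 / 2 * r - 1 := by linarith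
  have ht := (tendsto_rpow_atTop hδ).comp tendsto_natCast_atTop_atTop
  obtain ⟨n, hn1, hn2⟩ := ((ht.eventually_gt_atTop (K.toReal ^ r)).and
    (Filter.eventually_gt_atTop 0)).exists
  exact absurd (hreal n hn2) (not_le.2 hn1)

theorem not_rnormed {r : ℝ} (hr : 2 / 3 < r) : ¬ IsRNormed r (prod (A0 𝕜) (L2 𝕜)) := by
  rintro ⟨N, hN, hE⟩
  obtain ⟨C1, hC1, h1⟩ := hE 𝕜 𝕜
  obtain ⟨C2, hC2, h2⟩ := hE (lpN 𝕜 ∞) (lpN 𝕜 1)
  refine not_dom hr hN ?_ C2 hC2 fun T => (h2 T).1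
  exact ((h1 (ContinuousLinearMap.id 𝕜 𝕜)).2).trans_lt (ENNReal.mul_lt_top hC1.lt_top prod_id)

theorem rnormed_iff {r : ℝ} (hr : 0 < r) : IsRNormed r (prod (A0 𝕜) (L2 𝕜)) ↔ r ≤ 2 / 3 := by
  constructor
  · intro h
    by_contra hc
    exact not_rnormed (not_le.1 hc) h
  · intro h
    refine ⟨prod (A0 𝕜) (L2 𝕜), rnorm_mono hr h (prod_L2 A0_normed), ?_⟩
    intro X Y _ _ _ _ _ _
    refine ⟨1, ENNReal.one_ne_top, fun T => ?_⟩
    rw [one_mul]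
    exact ⟨le_rfl, le_rfl⟩

end Pool.Agent.Y430.PN
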